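import Pool.Agent.Helper85.QT.St3

/-!
# Project QT (MP_d112a4_gt), module UNA: unfolding of the first variation integral
-/

set_option autoImplicit false

open MeasureTheory Matrix Set Topology
open scoped ENNReal ComplexConjugate

namespace Pool.Agent.Helper67.QT

open Pool.Agent.Helper85.QT Pool.Agent.Helper86.QA

/-- `a` is a finite fixed point of `g` -/
private def Fx (a : ℂ) (g : SL) : Prop := g 1 0 * a + g 1 1 ≠ 0 ∧ mb g a = a

private theorem Fx_mul (hCHV : StCHV) {g h : SL} {a : ℂ} (hg : Fx a g) (hh : Fx a h) :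
    Fx a (g * h) := by
  obtain ⟨h1, h2⟩ := hCHV.2.1 g h a hh.1
  refine ⟨?_, ?_⟩
  · rw [h2, hh.2]; exact mul_ne_zero hg.1 hh.1
  · rw [h1, hh.2, hg.2]

private theorem Fx_one (hCHV : StCHV) (a : ℂ) : Fx a 1 :=
  ⟨by simp, hCHV.2.2.2.1 a⟩

private theorem Fx_inv (hCHV : StCHV) {g : SL} {a : ℂ} (hg : Fx a g) : Fx a g⁻¹ := by
  obtain ⟨h1, h2⟩ := hCHV.2.1 g⁻¹ g a hg.1
  rw [inv_mul_cancel, hg.2] at h1 h2
  refine ⟨?_, ?_⟩
  · intro h0
    rw [h0, zero_mul] at h2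
    simp at h2
  · rw [← h1]; exact hCHV.2.2.2.1 a

private theorem Fx_zpow (hCHV : StCHV) {g : SL} {a : ℂ} (hg : Fx a g) (n : ℤ) : Fx a (g ^ n) := by
  let S : Subgroup SL :=
    { carrier := {g | Fx a g}
      mul_mem' := fun hx hy => Fx_mul hCHV hx hy
      one_mem' := Fx_one hCHV a
      inv_mem' := fun hx => Fx_inv hCHV hx }
  exact S.zpow_mem (x := g) hg n

private theorem th_mb (hCHV : StCHV) {g : SL} {a b z : ℂ} (ha : Fx a g) (hb : Fx b g)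
    (hz : g 1 0 * z + g 1 1 ≠ 0) (hza : z ≠ a) (hzb : z ≠ b) (hab : a ≠ b) :
    th a b (mb g z) = (g 1 0 * z + g 1 1) ^ 4 * th a b z := by
  have h1 := hCHV.2.2.1 g z a hz ha.1
  have h2 := hCHV.2.2.1 g z b hz hb.1
  have h3 := hCHV.2.2.1 g a b ha.1 hb.1
  rw [ha.2] at h1 h3
  rw [hb.2] at h2 h3
  have ha1 := ha.1
  have hb1 := hb.1
  unfold th
  rw [h1, h2]
  generalize g 1 0 * z + g 1 1 = Z at *
  generalize g 1 0 * a + g 1 1 = X at *
  generalize g 1 0 * b + g 1 1 = Y at *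
  have hza' : z - a ≠ 0 := sub_ne_zero.2 hza
  have hzb' : z - b ≠ 0 := sub_ne_zero.2 hzb
  have hab' : a - b ≠ 0 := sub_ne_zero.2 hab
  have hXY : X * Y = 1 := by
    have h4 : (a - b) * (X * Y) = (a - b) * 1 := by
      rw [eq_div_iff (mul_ne_zero ha1 hb1)] at h3
      rw [h3, mul_one]
    exact mul_left_cancel₀ hab' h4
  field_simp
  have : X ^ 2 * Y ^ 2 = 1 := by rw [← mul_pow, hXY, one_pow]
  rw [this]

section

variable {Γ : Type} [Group Γ] {ρ : Γ →* SL} {A B : Set ℂ}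

private theorem mb_mul (hCHV : StCHV) (kd : KD ρ A B) (g g' : Γ) {x : ℂ} (hx : x ∈ A) :
    mb (ρ (g * g')) x = mb (ρ g) (mb (ρ g') x) := by
  rw [map_mul]
  exact (hCHV.2.1 (ρ g) (ρ g') x (kd.mpA g' x hx).1).1

private theorem mb_inv (hCHV : StCHV) (g : Γ) {x : ℂ} (hx : (ρ g) 1 0 * x + (ρ g) 1 1 ≠ 0) :
    mb (ρ g⁻¹) (mb (ρ g) x) = x := by
  rw [← (hCHV.2.1 (ρ g⁻¹) (ρ g) x hx).1, ← map_mul, inv_mul_cancel, map_one]
  exact hCHV.2.2.2.1 x

variable {lam : ℂ} {G φ : ℂ → ℂ} {m : ℝ} {μ0 : ℂ} {μ : ℂ → ℂ}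

private theorem th_meas (a b : ℂ) : Measurable (th a b) := by
  unfold th
  fun_prop

/-- transformation of the integral of the modulus -/
private theorem keyL (hCHV : StCHV) (kd : KD ρ A B) (hc : Cof ρ A lam G φ m μ0 μ) {g : Γ}
    {a b : ℂ} (ha : Fx a (ρ g)) (hb : Fx b (ρ g)) (haA : a ∉ A) (hbA : b ∉ A) (hab : a ≠ b)
    {S : Set ℂ} (hS : S ⊆ A) (hSm : MeasurableSet S) (hSm' : MeasurableSet (mb (ρ g) '' S)) :
    ∫⁻ ξ in mb (ρ g) '' S, ‖μ ξ * th a b ξ‖ₑ = ∫⁻ ξ in S, ‖μ ξ * th a b ξ‖ₑ := by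
  have hme : Measurable (fun ξ => ‖μ ξ * th a b ξ‖ₑ) := (hc.me.mul (th_meas a b)).enorm
  rw [← lintegral_indicator hSm', ← lintegral_indicator hSm,
    ← hCHV.1 (ρ g) _ (hme.indicator hSm')]
  refine lintegral_congr fun ξ => ?_
  by_cases hd : (ρ g) 1 0 * ξ + (ρ g) 1 1 = 0
  · have h1 : ξ ∉ S := fun hξ => (kd.mpA g ξ (hS hξ)).1 hd
    rw [hd, indicator_of_notMem h1]
    simp
  · by_cases hξ : ξ ∈ S
    · have h1 : mb (ρ g) ξ ∈ mb (ρ g) '' S := mem_image_of_mem _ hξ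
      rw [indicator_of_mem h1, indicator_of_mem hξ, ← ofReal_norm,
        ← ofReal_norm, ← ENNReal.ofReal_mul (norm_nonneg _)]
      congr 1
      have hξA := hS hξ
      rw [th_mb hCHV ha hb hd (fun h => haA (h ▸ hξA)) (fun h => hbA (h ▸ hξA)) hab]
      have h2 := congrArg norm (hc.inv g ξ hξA)
      rw [norm_mul, norm_mul, RCLike.norm_conj] at h2
      have h3 : ‖(((ρ g) 1 0 * ξ + (ρ g) 1 1) ^ 2)⁻¹‖ ≠ 0 := by
        rw [norm_ne_zero_iff]
        exact inv_ne_zero (pow_ne_zero 2 hd)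
      have h4 : ‖μ (mb (ρ g) ξ)‖ = ‖μ ξ‖ := mul_right_cancel₀ h3 h2
      rw [norm_mul, norm_mul, norm_mul, h4, norm_pow]
      have h5 : ‖(ρ g) 1 0 * ξ + (ρ g) 1 1‖ ≠ 0 := norm_ne_zero_iff.2 hd
      field_simp
    · have h1 : mb (ρ g) ξ ∉ mb (ρ g) '' S := by
        rintro ⟨s, hs, hse⟩
        have h2 := mb_inv hCHV g hd
        rw [← hse, mb_inv hCHV g (kd.mpA g s (hS hs)).1] at h2
        exact hξ (h2 ▸ hs)
      rw [indicator_of_notMem h1, indicator_of_notMem hξ, zero_mul]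

end

theorem hUNA (hCHV : StCHV) (hACU : StACU) (hANA : StANA) (hANB : StANB) (hTRA : StTRA)
    (hGPM : StGPM) (hDFX : StDFX) : StUNA := by
  intro Γ _ ρ A B α lam M G m φ C3 hAnn μ0 μ hc γ a b l hγ hM hl u₁
  have kd := hAnn.kd
  have hcount : Countable Γ := (hACU Γ ρ A B kd).1
  obtain ⟨haLS, hbLS, hfix⟩ := hDFX Γ ρ A B α lam M G m φ C3 hAnn γ a b l hγ hM hl
  have hab : a ≠ b := hM.1
  have haA : a ∉ A := fun h => haLS (Or.inl h)
  have hbA : b ∉ A := fun h => hbLS (Or.inl h)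
  obtain ⟨ana1, -⟩ := hANA Γ ρ A B α lam M G m φ C3 hAnn
  obtain ⟨-, -, -, -, -, -, -, -, -, -, -, -, -, anb1, anb2⟩ := hANB Γ ρ A B α lam M G m φ C3 hAnn
  set L : ℝ := l.re with hL
  -- fixed points
  have hFa : ∀ n : ℤ, Fx a (ρ (γ ^ n)) := by
    intro n; rw [map_zpow]
    exact Fx_zpow hCHV (g := ρ γ) ⟨hM.2.1, hM.2.2.1⟩ n
  have hFb : ∀ n : ℤ, Fx b (ρ (γ ^ n)) := by
    intro n; rw [map_zpow]
    exact Fx_zpow hCHV (g := ρ γ) ⟨hM.2.2.2.1, hM.2.2.2.2.1⟩ n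
  -- the sets
  set E0 : Set ℂ := EE lam G φ 0 m with hE0
  have hE0A : E0 ⊆ A := (anb2 0 m le_rfl le_rfl).1
  have hE0m : MeasurableSet E0 := (anb2 0 m le_rfl le_rfl).2.measurableSet
  set E : Γ → Set ℂ := fun g => mb (ρ g) '' E0 with hE
  have hEm : ∀ g, MeasurableSet (E g) := fun g => (hTRA Γ ρ A B kd g E0 hE0A hE0m).1.1
  have hEA : ∀ g, E g ⊆ A := fun g => (hTRA Γ ρ A B kd g E0 hE0A hE0m).1.2
  have hEmul : ∀ g g' : Γ, E (g * g') = mb (ρ g) '' E g' := by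
    intro g g'
    show mb (ρ (g * g')) '' E0 = mb (ρ g) '' (mb (ρ g') '' E0)
    rw [image_image]
    exact image_congr fun x hx => mb_mul hCHV kd g g' (hE0A hx)
  have hff : ∀ (n : ℤ) (w : ℂ), w ∈ Sm m →
      ff lam G φ (w + n) = Complex.exp (n * lam) * ff lam G φ w := by
    intro n
    have hs : ∀ (n : ℤ) (w : ℂ), w ∈ Sm m → w + n ∈ Sm m := by
      intro n w hw
      simpa [Sm] using hw
    induction n using Int.induction_on with
    | zero => intro w _; simp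
    | succ k ih =>
      intro w hw
      have h1 := (anb1 (w + (k : ℤ)) (hs _ w hw)).1
      have h2 : w + ((k + 1 : ℤ) : ℂ) = w + ((k : ℤ) : ℂ) + 1 := by push_cast; ring
      rw [h2, h1, ih w hw, ← mul_assoc, ← Complex.exp_add]
      congr 2
      push_cast; ring
    | pred k ih =>
      intro w hw
      have h1 := (anb1 (w + (-(k : ℤ) - 1 : ℤ)) (hs _ w hw)).1
      have h2 : w + ((-(k : ℤ) - 1 : ℤ) : ℂ) + 1 = w + ((-(k : ℤ) : ℤ) : ℂ) := by
        push_cast; ring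
      rw [h2, ih w hw] at h1
      have h3 : Complex.exp ((-(k : ℤ) : ℤ) * lam) =
          Complex.exp lam * Complex.exp ((-(k : ℤ) - 1 : ℤ) * lam) := by
        rw [← Complex.exp_add]; congr 1; push_cast; ring
      rw [h3, mul_assoc] at h1
      exact (mul_left_cancel₀ (Complex.exp_ne_zero lam) h1).symm
  have hEal0 : ∀ n : ℤ, mb (ρ (α ^ n)) '' E0 = E0 := by
    intro n
    have hsub : ∀ n : ℤ, mb (ρ (α ^ n)) '' E0 ⊆ E0 := by
      rintro n _ ⟨_, ⟨w, hw, rfl⟩, rfl⟩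
      refine ⟨w + n, ?_, ?_⟩
      · simpa [Sab] using hw
      · show ff lam G φ (w + n) = _
        rw [hff n w hw, (ana1 n _).2]
        rfl
    refine Subset.antisymm (hsub n) ?_
    intro x hx
    have h1 : mb (ρ (α ^ (-n))) x ∈ E0 := hsub (-n) (mem_image_of_mem _ hx)
    refine ⟨_, h1, ?_⟩
    rw [← mb_mul hCHV kd _ _ (hE0A hx), ← _root_.zpow_add, add_neg_cancel, zpow_zero, map_one]
    exact hCHV.2.2.2.1 x
  have hEal : ∀ (g : Γ) (n : ℤ), E (g * α ^ n) = E g := by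
    intro g n
    rw [hEmul]
    show mb (ρ g) '' (mb (ρ (α ^ n)) '' E0) = _
    rw [hEal0]
  have hEdis : ∀ g g' : Γ, (∀ n : ℤ, g⁻¹ * g' ≠ α ^ n) → Disjoint (E g) (E g') := by
    intro g g' hgg
    rw [Set.disjoint_left]
    rintro ξ ⟨x, hx, hxe⟩ ⟨y, hy, hye⟩
    have h1 : mb (ρ (g⁻¹ * g')) y = x := by
      rw [mb_mul hCHV kd _ _ (hE0A hy), hye, ← hxe]
      exact mb_inv hCHV g (kd.mpA g x (hE0A hx)).1
    exact Set.disjoint_left.1 (hAnn.dj (g⁻¹ * g') hgg) ⟨y, hy, h1⟩ hx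
  -- the centres
  set c : Γ → ℝ := fun g => cen ρ g a b with hcdef
  have hc1 : ∀ g : Γ, c (γ * g) = c g - L := by
    intro g
    exact ((hGPM.2.2.1 Γ ρ γ a b l hM g).1 (hfix g).1 (hfix g).2.1).2.2
  have hcn : ∀ (n : ℤ) (g : Γ), c (γ ^ n * g) = c g - n * L := by
    intro n
    induction n using Int.induction_on with
    | zero => intro g; simp
    | succ k ih =>
      intro g
      have h1 : γ ^ ((k : ℤ) + 1) * g = γ * (γ ^ (k : ℤ) * g) := by
        rw [← mul_assoc, add_comm, _root_.zpow_one_add]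
      rw [h1, hc1, ih]; push_cast; ring
    | pred k ih =>
      intro g
      have h1 : γ ^ (-(k : ℤ)) * g = γ * (γ ^ (-(k : ℤ) - 1) * g) := by
        rw [← mul_assoc, ← _root_.zpow_one_add]; congr 2; ring
      have h2 := hc1 (γ ^ (-(k : ℤ) - 1) * g)
      rw [← h1, ih] at h2
      push_cast at h2 ⊢
      linarith
  have hcal : ∀ (g : Γ) (n : ℤ), c (g * α ^ n) = c g := by
    intro g n
    have h1 := (hGPM.2.2.2 Γ ρ α lam hAnn.re hAnn.dg hAnn.mu g n).1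
    show cen ρ (g * α ^ n) a b = cen ρ g a b
    unfold cen
    rw [(h1 a).1, (h1 b).1]
  -- the domain
  have hFmeas : MeasurableSet (Fm a b l) := by
    have h1 : Measurable (fun ξ : ℂ => ‖(ξ - a) / (ξ - b)‖) := by fun_prop
    exact (measurableSet_le measurable_const h1).inter (measurableSet_lt h1 measurable_const)
  have hcrd : ∀ (n : ℤ) (ξ : ℂ), ξ ∈ A →
      (mb (ρ (γ ^ n)) ξ - a) / (mb (ρ (γ ^ n)) ξ - b) =
        Complex.exp (n * l) * ((ξ - a) / (ξ - b)) := by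
    have hstep : ∀ (n : ℤ) (ξ : ℂ), ξ ∈ A →
        (mb (ρ (γ ^ (1 + n))) ξ - a) / (mb (ρ (γ ^ (1 + n))) ξ - b) =
        Complex.exp l * ((mb (ρ (γ ^ n)) ξ - a) / (mb (ρ (γ ^ n)) ξ - b)) := by
      intro n ξ hξ
      rw [_root_.zpow_one_add, mb_mul hCHV kd _ _ hξ]
      have h1 := (kd.mpA (γ ^ n) ξ hξ).2
      exact hM.2.2.2.2.2 _ (fun h => hbA (h ▸ h1)) (kd.mpA γ _ h1).1
    intro n
    induction n using Int.induction_on with
    | zero =>
      intro ξ _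
      rw [zpow_zero, map_one, hCHV.2.2.2.1 ξ]; simp
    | succ k ih =>
      intro ξ hξ
      have h1 := hstep k ξ hξ
      rw [add_comm (1 : ℤ), ih ξ hξ, ← mul_assoc, ← Complex.exp_add] at h1
      rw [h1]; congr 2; push_cast; ring
    | pred k ih =>
      intro ξ hξ
      have h1 := hstep (-(k : ℤ) - 1) ξ hξ
      have h2 : (1 : ℤ) + (-(k : ℤ) - 1) = -(k : ℤ) := by ring
      rw [h2, ih ξ hξ] at h1
      have h3 : Complex.exp ((-(k : ℤ) : ℤ) * l) =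
          Complex.exp l * Complex.exp ((-(k : ℤ) - 1 : ℤ) * l) := by
        rw [← Complex.exp_add]; congr 1; push_cast; ring
      rw [h3, mul_assoc] at h1
      exact (mul_left_cancel₀ (Complex.exp_ne_zero l) h1).symm
  have hmemF : ∀ (n : ℤ) (ξ : ℂ), ξ ∈ A → (mb (ρ (γ ^ n)) ξ ∈ Fm a b l ↔
      Real.log ‖(ξ - a) / (ξ - b)‖ + n • L ∈ Ico (0 : ℝ) (0 + L)) := by
    intro n ξ hξ
    have h1 : ξ - a ≠ 0 := sub_ne_zero.2 (fun h => haA (h ▸ hξ))
    have h2 : ξ - b ≠ 0 := sub_ne_zero.2 (fun h => hbA (h ▸ hξ))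
    have h3 : 0 < ‖(ξ - a) / (ξ - b)‖ := norm_pos_iff.2 (div_ne_zero h1 h2)
    have h4 : ‖(mb (ρ (γ ^ n)) ξ - a) / (mb (ρ (γ ^ n)) ξ - b)‖ =
        Real.exp (Real.log ‖(ξ - a) / (ξ - b)‖ + n • L) := by
      rw [hcrd n ξ hξ, norm_mul, Complex.norm_exp, Real.exp_add, Real.exp_log h3, mul_comm]
      congr 2
      simp [hL]
    show 1 ≤ ‖_‖ ∧ ‖_‖ < Real.exp l.re ↔ _
    rw [h4, Real.one_le_exp_iff, Real.exp_lt_exp, zero_add]
    rfl
  have hexn : ∀ ξ ∈ A, ∃! n : ℤ, mb (ρ (γ ^ n)) ξ ∈ Fm a b l := by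
    intro ξ hξ
    simp only [hmemF _ ξ hξ]
    exact existsUnique_add_zsmul_mem_Ico hl _ 0
  set h : ℂ → ℂ := fun ξ => μ ξ * th a b ξ with hh
  by_cases hint : IntegrableOn h (Fm a b l)
  swap
  · rw [integral_undef hint]; simp
  have hhm : Measurable h := hc.me.mul (th_meas a b)
  -- pairwise disjoint pieces
  have hpw : ∀ g : Γ, Pairwise (Function.onFun Disjoint fun n : ℤ => E (γ ^ n * g)) := by
    intro g n k hnk
    apply hEdis
    intro j hj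
    have h1 : γ ^ k * g = γ ^ n * g * α ^ j := by rw [← hj]; group
    have h2 := hcn k g
    rw [h1, hcal, hcn] at h2
    have h3 : (n : ℝ) * L = k * L := by linarith
    exact hnk (by exact_mod_cast mul_right_cancel₀ hl.ne' h3)
  have hWm : ∀ g : Γ, MeasurableSet (⋃ n : ℤ, E (γ ^ n * g)) :=
    fun g => MeasurableSet.iUnion fun n => hEm _
  -- Step B
  have stepB : ∀ g : Γ, ∫ ξ in Fm a b l ∩ ⋃ n : ℤ, E (γ ^ n * g), h ξ = ∫ ξ in E g, h ξ := by
    intro g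
    set V : ℤ → Set ℂ := fun n => E g ∩ {ξ | mb (ρ (γ ^ n)) ξ ∈ Fm a b l} with hV
    have hVm : ∀ n, MeasurableSet (V n) := fun n =>
      (hEm g).inter (hCHV.2.2.2.2 (ρ (γ ^ n)) hFmeas)
    have hVA : ∀ n, V n ⊆ A := fun n => inter_subset_left.trans (hEA g)
    have himg : ∀ n, Fm a b l ∩ E (γ ^ n * g) = mb (ρ (γ ^ n)) '' V n := by
      intro n
      rw [hEmul]
      ext ξ
      constructor
      · rintro ⟨h1, x, hx, rfl⟩
        exact ⟨x, ⟨hx, h1⟩, rfl⟩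
      · rintro ⟨x, ⟨hx, h1⟩, rfl⟩
        exact ⟨h1, x, hx, rfl⟩
    have hVdis : Pairwise (Function.onFun Disjoint V) := by
      intro n k hnk
      rw [Function.onFun, Set.disjoint_left]
      rintro ξ ⟨h1, h2⟩ ⟨_, h3⟩
      exact hnk ((hexn ξ (hEA g h1)).unique h2 h3)
    have hVU : E g = ⋃ n, V n := by
      ext ξ
      rw [mem_iUnion]
      constructor
      · intro h1
        obtain ⟨n, hn, _⟩ := hexn ξ (hEA g h1)
        exact ⟨n, h1, hn⟩
      · rintro ⟨n, h1, _⟩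
        exact h1
    have hFU : Fm a b l ∩ (⋃ n : ℤ, E (γ ^ n * g)) = ⋃ n : ℤ, Fm a b l ∩ E (γ ^ n * g) :=
      inter_iUnion _ _
    have hFm' : ∀ n : ℤ, MeasurableSet (Fm a b l ∩ E (γ ^ n * g)) :=
      fun n => hFmeas.inter (hEm _)
    have hFdis : Pairwise (Function.onFun Disjoint fun n : ℤ => Fm a b l ∩ E (γ ^ n * g)) :=
      fun n k hnk => (hpw g hnk).mono inter_subset_right inter_subset_right
    have hFint : IntegrableOn h (⋃ n : ℤ, Fm a b l ∩ E (γ ^ n * g)) := by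
      rw [← hFU]; exact hint.mono_set inter_subset_left
    have hlint : ∀ n : ℤ, ∫⁻ ξ in Fm a b l ∩ E (γ ^ n * g), ‖h ξ‖ₑ = ∫⁻ ξ in V n, ‖h ξ‖ₑ := by
      intro n
      have h1 := hFm' n
      rw [himg n] at h1 ⊢
      exact keyL hCHV kd hc (hFa n) (hFb n) haA hbA hab (hVA n) (hVm n) h1
    have hEint : IntegrableOn h (E g) := by
      refine ⟨hhm.aestronglyMeasurable, ?_⟩
      have h1 : ∫⁻ ξ in E g, ‖h ξ‖ₑ = ∫⁻ ξ in ⋃ n : ℤ, Fm a b l ∩ E (γ ^ n * g), ‖h ξ‖ₑ := by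
        rw [lintegral_iUnion hFm' hFdis]
        conv_lhs => rw [hVU]
        rw [lintegral_iUnion hVm hVdis]
        exact tsum_congr fun n => (hlint n).symm
      rw [hasFiniteIntegral_iff_enorm, h1]
      exact hasFiniteIntegral_iff_enorm.1 hFint.2
    have s1 := hasSum_integral_iUnion hFm' hFdis hFint
    have hEint' : IntegrableOn h (⋃ n, V n) := by rw [← hVU]; exact hEint
    have s2 := hasSum_integral_iUnion hVm hVdis hEint'
    have heq : ∀ n : ℤ, ∫ ξ in Fm a b l ∩ E (γ ^ n * g), h ξ = ∫ ξ in V n, h ξ := by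
      intro n
      rw [himg n]
      have fa := Fx_inv hCHV (hFa n)
      have fb := Fx_inv hCHV (hFb n)
      have h1 := ((hTRA Γ ρ A B kd (γ ^ n) (V n) (hVA n) (hVm n)).2.2 a b hab
        (by rw [map_inv]; exact fa.1) (by rw [map_inv]; exact fb.1)).2 lam G φ m μ0 μ hc
      rw [map_inv, fa.2, fb.2] at h1
      exact h1
    rw [hFU, hVU]
    simp only [heq] at s1
    exact s1.unique s2
  -- Step A
  set Q0 : Set (Γ ⧸ Subgroup.zpowers α) := {q | c q.out ∈ Ico u₁ (u₁ + L)} with hQ0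
  have hout : ∀ g : Γ, ∃ k : ℤ, ((g : Γ ⧸ Subgroup.zpowers α)).out = g * α ^ k := by
    intro g
    obtain ⟨⟨x, k, hk⟩, hx⟩ := QuotientGroup.mk_out_eq_mul (Subgroup.zpowers α) g
    refine ⟨k, ?_⟩
    rw [hx]
    exact congrArg (g * ·) hk.symm
  have hcQ : Countable (Γ ⧸ Subgroup.zpowers α) :=
    (Quotient.mk_surjective : Function.Surjective (Quotient.mk (QuotientGroup.leftRel
      (Subgroup.zpowers α)))).countable
  have hcQ0 : Countable Q0 := Subtype.countable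
  set T : Q0 → Set ℂ := fun q => Fm a b l ∩ ⋃ n : ℤ, E (γ ^ n * (q : Γ ⧸ Subgroup.zpowers α).out)
    with hT
  have hTm : ∀ q, MeasurableSet (T q) := fun q => hFmeas.inter (hWm _)
  have hTdis : Pairwise (Function.onFun Disjoint T) := by
    rintro ⟨q, hq⟩ ⟨q', hq'⟩ hqq
    rw [Function.onFun, Set.disjoint_left]
    rintro ξ ⟨_, h1⟩ ⟨_, h2⟩
    rw [mem_iUnion] at h1 h2
    obtain ⟨n, h1⟩ := h1
    obtain ⟨k, h2⟩ := h2
    have h1' : ξ ∈ E (γ ^ n * q.out) := h1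
    have h2' : ξ ∈ E (γ ^ k * q'.out) := h2
    by_cases hcase : ∀ j : ℤ, (γ ^ n * q.out)⁻¹ * (γ ^ k * q'.out) ≠ α ^ j
    · exact Set.disjoint_left.1 (hEdis _ _ hcase) h1' h2'
    · push Not at hcase
      obtain ⟨j, hj⟩ := hcase
      have h3 : γ ^ k * q'.out = γ ^ n * q.out * α ^ j := by rw [← hj]; group
      have h4 := hcn k q'.out
      rw [h3, hcal, hcn] at h4
      have hq1 : c q.out ∈ Ico u₁ (u₁ + L) := hq
      have hq2 : c q'.out ∈ Ico u₁ (u₁ + L) := hq'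
      have h5 : ((k - n : ℤ) : ℝ) * L = c q'.out - c q.out := by push_cast; linarith
      have h6 : k = n := by
        have h7 : ((k - n : ℤ) : ℝ) * L < 1 * L := by rw [h5]; linarith [hq1.1, hq2.2]
        have h8 : (-1 : ℝ) * L < ((k - n : ℤ) : ℝ) * L := by rw [h5]; linarith [hq1.2, hq2.1]
        have h9 : ((k - n : ℤ) : ℝ) < 1 := lt_of_mul_lt_mul_right h7 hl.le
        have h10 : (-1 : ℝ) < ((k - n : ℤ) : ℝ) := lt_of_mul_lt_mul_right h8 hl.le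
        have h11 : (k - n : ℤ) < 1 := by exact_mod_cast h9
        have h12 : (-1 : ℤ) < k - n := by exact_mod_cast h10
        omega
      rw [h6, mul_assoc] at h3
      have h7 : q'.out = q.out * α ^ j := mul_left_cancel h3
      apply hqq
      apply Subtype.ext
      show q = q'
      rw [← QuotientGroup.out_eq' q, ← QuotientGroup.out_eq' q', h7, eq_comm]
      exact QuotientGroup.mk_mul_of_mem _ (Subgroup.zpow_mem _ (Subgroup.mem_zpowers α) j)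
  have hTsub : (⋃ q, T q) ⊆ Fm a b l := iUnion_subset fun q => inter_subset_left
  have hzero : ∀ ξ ∈ Fm a b l \ ⋃ q, T q, h ξ = 0 := by
    rintro ξ ⟨h1, h2⟩
    show μ ξ * th a b ξ = 0
    rw [hc.sup ξ, zero_mul]
    intro g hg
    apply h2
    obtain ⟨n, hn, _⟩ := existsUnique_add_zsmul_mem_Ico hl (c g) u₁
    obtain ⟨k, hk⟩ := hout (γ ^ (-n) * g)
    have h3 : c ((γ ^ (-n) * g : Γ) : Γ ⧸ Subgroup.zpowers α).out = c g + n • L := by
      rw [hk, hcal, hcn]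
      simp
    rw [mem_iUnion]
    refine ⟨⟨((γ ^ (-n) * g : Γ) : Γ ⧸ Subgroup.zpowers α), ?_⟩, h1, ?_⟩
    · show c ((γ ^ (-n) * g : Γ) : Γ ⧸ Subgroup.zpowers α).out ∈ Ico u₁ (u₁ + L)
      rw [h3]; exact hn
    · rw [mem_iUnion]
      refine ⟨n, ?_⟩
      show ξ ∈ E (γ ^ n * ((γ ^ (-n) * g : Γ) : Γ ⧸ Subgroup.zpowers α).out)
      rw [hk, ← mul_assoc, hEal, ← mul_assoc, ← _root_.zpow_add, add_neg_cancel, zpow_zero, one_mul]
      exact hg
  have hTint : IntegrableOn h (⋃ q, T q) := hint.mono_set hTsub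
  have s3 := hasSum_integral_iUnion hTm hTdis hTint
  have e1 : ∫ ξ in Fm a b l, h ξ = ∫ ξ in ⋃ q, T q, h ξ :=
    setIntegral_eq_of_subset_of_forall_sdiff_eq_zero hFmeas hTsub hzero
  have e2 : ENNReal.ofReal ‖∫ ξ in Fm a b l, h ξ‖ ≤ ∑' q : Q0, ‖∫ ξ in T q, h ξ‖ₑ := by
    rw [ofReal_norm, e1, ← s3.tsum_eq]
    exact enorm_tsum_le_tsum_enorm
  refine e2.trans (le_of_eq ?_)
  have e3 : ∀ q : Q0, ‖∫ ξ in T q, h ξ‖ₑ =
      (fun q : Γ ⧸ Subgroup.zpowers α => ENNReal.ofReal ‖∫ ξ in E q.out, h ξ‖) q := by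
    intro q
    show ‖∫ ξ in T q, h ξ‖ₑ = ENNReal.ofReal ‖∫ ξ in E (q : Γ ⧸ Subgroup.zpowers α).out, h ξ‖
    rw [ofReal_norm, ← stepB]
  rw [tsum_congr e3, tsum_subtype Q0
    (fun q : Γ ⧸ Subgroup.zpowers α => ENNReal.ofReal ‖∫ ξ in E q.out, h ξ‖)]
  refine tsum_congr fun q => ?_
  by_cases hq : c q.out ∈ Ico u₁ (u₁ + L)
  · rw [indicator_of_mem (show q ∈ Q0 from hq),
      indicator_of_mem (show cen ρ q.out a b ∈ Ico u₁ (u₁ + L) from hq)]
  · rw [indicator_of_notMem (show q ∉ Q0 from hq),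
      indicator_of_notMem (show cen ρ q.out a b ∉ Ico u₁ (u₁ + L) from hq)]

end Pool.Agent.Helper67.QT
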